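import Pool.Agent.Y223.G.Stm13

set_option autoImplicit false

/-!
Localization of the base of the Weierstrass equations.
-/

namespace Pool.Agent.Y74.H

open Pool.Agent.Y223.G

/-- The map from the base to its localization. -/
def toOL (k O K : Type) [CommRing k] [CommRing O] [Field K] [Algebra k O]
    [Algebra O K] [Algebra k K] [IsScalarTower k O K] (s : k) : O →+* OL O (K := K) s where
  toFun o := ⟨algebraMap O K o, 0, o, by rw [pow_zero, one_mul]⟩
  map_one' := Subtype.ext (map_one _)
  map_mul' _ _ := Subtype.ext (map_mul _ _ _)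
  map_zero' := Subtype.ext (map_zero _)
  map_add' _ _ := Subtype.ext (map_add _ _ _)

theorem tr_loc (k O K : Type) [CommRing k] [CommRing O] [IsDomain O] [Field K] [Algebra k O]
    [Algebra O K] [Algebra k K] [IsScalarTower k O K]
    (s : k) (hs : algebraMap k K s ≠ 0) (z : K) (hz : Transcendental O z) :
    Transcendental (OL O (K := K) s) z := by
  intro hA
  apply hz
  let _ : Algebra O (OL O (K := K) s) := (toOL k O K s).toAlgebra
  have ht : IsScalarTower O (OL O (K := K) s) K := IsScalarTower.of_algebraMap_eq (fun _ => rfl)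
  have halg : Algebra.IsAlgebraic O (OL O (K := K) s) := by
    refine ⟨fun x => ?_⟩
    obtain ⟨n, y, hy⟩ := x.2
    refine ⟨Polynomial.C (algebraMap k O s ^ n) * Polynomial.X - Polynomial.C y, ?_, ?_⟩
    · intro h
      have h1 := congrArg (fun p => Polynomial.coeff p 1) h
      simp only [Polynomial.coeff_sub, Polynomial.coeff_C_mul, Polynomial.coeff_X_one, mul_one,
        Polynomial.coeff_C_succ, sub_zero, Polynomial.coeff_zero] at h1
      apply hs
      rw [IsScalarTower.algebraMap_apply k O K]
      have h2 : algebraMap k O s = 0 := by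
        by_contra h3
        exact pow_ne_zero n h3 h1
      rw [h2, map_zero]
    · apply Subtype.ext
      rw [map_sub, map_mul, Polynomial.aeval_C, Polynomial.aeval_C, Polynomial.aeval_X]
      show algebraMap O K (algebraMap k O s ^ n) * (x : K) - algebraMap O K y = 0
      rw [← hy, map_pow, ← IsScalarTower.algebraMap_apply k O K, sub_self]
  exact IsAlgebraic.restrictScalars O hA

theorem t_ECOL : S_ECOL := by
  intro k O K G Ω _ _ _ _ _ _ _ _ _ hinj ρ T hT z Wc hE s hs Tb hTb
  refine ⟨fun ω => (Wc ω).map (toOL k O K s), ?_⟩
  have hcom : ∀ g o, Tb g (toOL k O K s o) = toOL k O K s (T g o) := by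
    intro g o
    apply Subtype.ext
    exact (hTb g (toOL k O K s o)).symm.trans (hT g o)
  constructor
  · intro ω
    have h := hE.ec ω
    exact ⟨h.z2, h.z0, tr_loc k O K s hs _ h.tr, h.eq⟩
  · intro ω
    rw [WeierstrassCurve.map_Δ]
    exact (hE.du ω).map _
  · intro ω
    obtain ⟨a, b, ha, hb, h⟩ := hE.ch ω
    refine ⟨toOL k O K s a, toOL k O K s b, ?_, ?_, ?_⟩
    · intro h0
      exact ha (hinj ((congrArg Subtype.val h0).trans (map_zero _).symm))
    · intro h0
      exact hb (hinj ((congrArg Subtype.val h0).trans (map_zero _).symm))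
    · intro g
      obtain ⟨C, h1, h2, h3, h4⟩ := h g
      have e : ∀ n : ℕ, algebraMap (OL O (K := K) s) K
          (((C.map (toOL k O K s)).u : OL O (K := K) s) ^ n) = algebraMap O K ((C.u : O) ^ n) := by
        intro n
        rw [map_pow, map_pow]
        rfl
      have e' : algebraMap (OL O (K := K) s) K ((C.map (toOL k O K s)).s *
          ((C.map (toOL k O K s)).u : OL O (K := K) s) ^ 2) =
          algebraMap O K (C.s * (C.u : O) ^ 2) := by
        rw [map_mul, e, map_mul]
        rfl
      refine ⟨C.map (toOL k O K s), ?_, ?_, ?_, ?_⟩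
      · rw [h1, e]
        rfl
      · rw [h2, e, e']
        rfl
      · have h5 := congrArg (fun W => WeierstrassCurve.map W (toOL k O K s)) h3
        refine h5.trans ?_
        show (C • (Wc ω).map (T g : O →+* O)).map (toOL k O K s) = _
        rw [← WeierstrassCurve.map_variableChange, WeierstrassCurve.map_map,
          WeierstrassCurve.map_map]
        congr 2
        apply RingHom.ext
        intro o
        exact (hcom g o).symm
      · have h5 := congrArg (toOL k O K s) h4
        rw [map_mul, map_mul, map_mul, ← hcom, ← hcom] at h5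
        exact h5

end Pool.Agent.Y74.H
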